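import Pool.Agent.Work.MP_51e72e_nt.SL.F

set_option autoImplicit false

namespace Pool.Agent.Work.MP_51e72e_nt.Parked.LargestPrime

open Classical in
/-- The former hand-in, as the case `F = {f}`, `z = 0` of the sifted theorem. -/
theorem result :
    ∀ d : ℕ, 2 ≤ d → ∃ c : ℝ, 0 < c ∧
      ∀ f : Polynomial ℤ, Irreducible f → f.natDegree = d →
        ∀ᶠ N : ℕ in Filter.atTop, c * N ≤ (((Finset.Icc 1 N).filter fun n : ℕ =>
          ∃ p : ℕ, p.Prime ∧ (p : ℤ) ∣ f.eval (n : ℤ) ∧ (N : ℝ) ^ (1 + c) < p).card : ℝ) := by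
  intro d hd
  obtain ⟨c, hc, h⟩ := Pool.Agent.Work.MP_51e72e_nt.SL.sifted_largest d
  refine ⟨c, hc, fun f hf hdf => ?_⟩
  filter_upwards [h {f} (by simpa using ⟨hf, by omega⟩) (by simpa using hdf) f
    (Finset.mem_singleton_self f) (by omega)] with N hN
  have k := hN 0 (by rw [Nat.cast_zero]; positivity)
  rw [show (Finset.range (0 + 1)).filter Nat.Prime = ∅ by decide, Finset.prod_empty, mul_one] at k
  exact k.trans (Nat.cast_le.2 (Finset.card_le_card fun t ht =>
    Finset.mem_filter.2 ⟨(Finset.mem_filter.1 ht).1, (Finset.mem_filter.1 ht).2.2⟩))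

end Pool.Agent.Work.MP_51e72e_nt.Parked.LargestPrime
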