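import Pool.Agent.Work.MP_51e72e_nt.L2Final
import Pool.Agent.Work.MP_ca0f09_nt.Construct

open Finset

namespace Pool.Agent.Work.MP_51e72e_nt.Parked.LevelTwo

/-- Level of distribution `N * N` for the values of two non-proportional linear forms, for
factorable weights supported on integers without prime factors up to `N ^ η`. -/
theorem result (a₁ b₁ a₂ b₂ : ℤ) (ha₁ : a₁ ≠ 0) (ha₂ : a₂ ≠ 0) (hab : a₁ * b₂ ≠ a₂ * b₁)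
    (η ε : ℝ) (hη : 0 < η) (hε : 0 < ε) :
    ∃ N₀ : ℕ, ∀ N : ℕ, N₀ ≤ N → ∀ φ₁ φ₂ : ℕ → ℂ, (∀ m, ‖φ₁ m‖ ≤ 1) → (∀ m, ‖φ₂ m‖ ≤ 1) →
      (∀ m, φ₁ m ≠ 0 → ∀ p : ℕ, p.Prime → p ∣ m → (N : ℝ) ^ η < p) →
      (∀ m, φ₂ m ≠ 0 → ∀ p : ℕ, p.Prime → p ∣ m → (N : ℝ) ^ η < p) →
      ‖∑ m₁ ∈ Icc 1 N, ∑ m₂ ∈ Icc 1 N, φ₁ m₁ * φ₂ m₂ *
        ((((Icc 1 N).filter fun n : ℕ =>
            (m₁ : ℤ) ∣ a₁ * n + b₁ ∧ (m₂ : ℤ) ∣ a₂ * n + b₂).card : ℂ)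
          - (N : ℂ) / ((m₁ : ℂ) * m₂))‖ ≤ ε * N := by
  obtain ⟨N₀, h⟩ := Filter.eventually_atTop.1
    (Pool.Agent.Work.MP_51e72e_nt.LT.level_complex
      (fun h W hh hW e he he1 => Pool.Agent.Work.MP_ca0f09_nt.exists_sys h W hh hW e he he1)
      ha₁ ha₂ hab hη hε)
  refine ⟨N₀, fun N hN φ₁ φ₂ p1 p2 p3 p4 => ?_⟩
  have := h N hN φ₁ φ₂ p1 p2 p3 p4
  simp only [Pool.Agent.Work.MP_51e72e_nt.LT.rem] at this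
  push_cast at this
  exact this

end Pool.Agent.Work.MP_51e72e_nt.Parked.LevelTwo
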