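import Pool.Agent.Work.MP_51e72e_nt.AV.Main

set_option autoImplicit false

open Classical in
theorem Pool.Agent.Work.MP_51e72e_nt.Parked.LinearAverage.result :
    ∃ C : Finset (ℤ × ℤ) → ℝ,
      (∀ F : Finset (ℤ × ℤ), (∀ f ∈ F, 1 ≤ f.1 ∧ IsCoprime f.1 f.2) →
        Filter.Tendsto
          (fun y : ℕ => ∏ p ∈ (Finset.range (y + 1)).filter Nat.Prime,
            (1 - (((Finset.range p).filter
                  (fun n : ℕ => (p : ℤ) ∣ ∏ f ∈ F, (f.1 * (n : ℤ) + f.2))).card : ℝ) / (p : ℝ)) /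
              (1 - 1 / (p : ℝ)) ^ F.card)
          Filter.atTop (nhds (C F))) ∧
      ∀ F₀ : Finset (ℤ × ℤ), (∀ f ∈ F₀, 1 ≤ f.1 ∧ IsCoprime f.1 f.2) → F₀.card ≤ 1 →
        ∀ (k A : ℕ) (ε η : ℝ), 0 < ε → 0 < η → ∀ᶠ N : ℕ in Filter.atTop, ∀ H : ℕ,
          (N : ℝ) ^ ε ≤ (H : ℝ) → H ≤ N →
            ((((((Finset.Icc (1 : ℤ) (H : ℤ) ×ˢ Finset.Icc (-(H : ℤ)) (H : ℤ)).filter
                (fun f : ℤ × ℤ => IsCoprime f.1 f.2)) \ F₀).powersetCard k).filter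
              (fun F : Finset (ℤ × ℤ) => η <
                |(((Finset.Icc 1 N).filter (fun n : ℕ =>
                      ∀ f ∈ F₀ ∪ F, (f.1 * (n : ℤ) + f.2).natAbs.Prime)).card : ℝ) *
                    (∏ f ∈ F₀ ∪ F, Real.log |((f.1 * (N : ℤ) + f.2 : ℤ) : ℝ)|) / (N : ℝ)
                  - C (F₀ ∪ F)|)).card : ℝ)
              ≤ (H : ℝ) ^ (2 * k) / Real.log (N : ℝ) ^ A := by
  refine ⟨Pool.Agent.Work.MP_51e72e_nt.AV.CF,
    fun F h => Pool.Agent.Work.MP_51e72e_nt.AV.EP_tendsto h, fun F₀ h₀ h₁ k A ε η hε hη => ?_⟩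
  filter_upwards [Pool.Agent.Work.MP_51e72e_nt.AV.main F₀ h₀ h₁ k A hε hη] with N h H a b
  refine le_of_eq_of_le ?_ (h H a b)
  congr 2
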