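import Pool.Agent.Work.MP_51e72e_nt.QAMain

open Pool.Agent.Work.MP_51e72e_nt.QA in
theorem Pool.Agent.Work.MP_51e72e_nt.Parked.QuadraticAverage.result :
    ∃ C : ℕ → ℝ,
      (∀ k : ℕ, 1 ≤ k → Filter.Tendsto
        (fun y : ℕ => ∏ p ∈ (Finset.range (y + 1)).filter Nat.Prime,
          (1 - (((Finset.range p).filter (fun n : ℕ => p ∣ n ^ 2 + k)).card : ℝ) / (p : ℝ)) /
            (1 - 1 / (p : ℝ)))
        Filter.atTop (nhds (C k))) ∧
      ∀ ε η : ℝ, 0 < ε → 0 < η → ∀ᶠ N : ℕ in Filter.atTop, ∀ K : ℕ,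
        (N : ℝ) ^ (5 / 6 + ε) ≤ (K : ℝ) → K ≤ N →
          (((Finset.Icc 1 K).filter (fun k : ℕ => η <
            |(((Finset.Icc 1 N).filter (fun n : ℕ => (n ^ 2 + k).Prime)).card : ℝ) *
              Real.log ((N : ℝ) ^ 2 + (k : ℝ)) / (N : ℝ) - C k|)).card : ℝ) ≤ η * (K : ℝ) := by
  refine ⟨CC, fun k hk => (EP_tendsto hk).congr fun y => ?_, fun ε η hε hη => main hε hη⟩
  refine Finset.prod_congr (by
    ext p
    simp only [mem_Ps, Finset.mem_filter, Finset.mem_range, Nat.lt_succ_iff, and_comm])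
    fun p hp => ?_
  have hp := (Finset.mem_filter.1 hp).2
  have e : ((Finset.range p).filter (fun n : ℕ => p ∣ n ^ 2 + k)).card = rho k p :=
    congrArg _ (Finset.filter_congr fun n _ => by exact_mod_cast Iff.rfl)
  have h : (rho k p : ℝ) = 1 + jj k p := by exact_mod_cast rho_prime k hp
  have p2 : (2 : ℝ) ≤ p := by exact_mod_cast hp.two_le
  have : (p : ℝ) - 1 ≠ 0 := by linarith
  rw [e, h]
  field_simp
  ring
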